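import Pool.Agent.W2helper83.BT.Defs4
import Pool.Agent.W2helper53.BT.RatioA

/-!
# Project BT, fourth part, piece RATB (helper83): the ratios of two periodic points
-/

set_option autoImplicit false

namespace Pool.Agent.W2helper49.BT4

open IsDedekindDomain NumberField Polynomial
open Pool.Agent.W2helper83.BT
open Pool.Agent.W2helper73.BT (val_nat)
open Pool.Agent.W2helper53.BT (map_pera)

section val

variable {K L : Type} [Field K] [NumberField K] [Field L] [NumberField L] [Algebra K L]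
  {v : HeightOneSpectrum (𝓞 K)} {w : HeightOneSpectrum (𝓞 L)}

lemma val_one_iff (h : ∀ x : K, w.valuation L (algebraMap K L x) ≤ 1 ↔ v.valuation K x ≤ 1)
    {z : K} (hz : z ≠ 0) : w.valuation L (algebraMap K L z) = 1 ↔ v.valuation K z = 1 := by
  have hz' : algebraMap K L z ≠ 0 := by rw [Ne, map_eq_zero]; exact hz
  have a1 := h z
  have a2 := h z⁻¹
  rw [map_inv₀, map_inv₀, map_inv₀] at a2
  have p1 : 0 < w.valuation L (algebraMap K L z) := zero_lt_iff.2 ((Valuation.ne_zero_iff _).2 hz')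
  have p2 : 0 < v.valuation K z := zero_lt_iff.2 ((Valuation.ne_zero_iff _).2 hz)
  rw [inv_le_one₀ p1, inv_le_one₀ p2] at a2
  constructor
  · intro h1
    exact le_antisymm (a1.1 h1.le) (a2.1 h1.ge)
  · intro h1
    exact le_antisymm (a1.2 h1.le) (a2.2 h1.ge)

lemma val_gt_iff (h : ∀ x : K, w.valuation L (algebraMap K L x) ≤ 1 ↔ v.valuation K x ≤ 1)
    (z : K) : 1 < w.valuation L (algebraMap K L z) ↔ 1 < v.valuation K z := by
  rw [← not_le, ← not_le, h]

lemma val_eq_iff (h : ∀ x : K, w.valuation L (algebraMap K L x) ≤ 1 ↔ v.valuation K x ≤ 1)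
    {z z' : K} (hz : z ≠ 0) (hz' : z' ≠ 0) :
    w.valuation L (algebraMap K L z) = w.valuation L (algebraMap K L z') ↔
      v.valuation K z = v.valuation K z' := by
  have h1 := val_one_iff h (div_ne_zero hz hz')
  rw [map_div₀, map_div₀, map_div₀, div_eq_one_iff_eq, div_eq_one_iff_eq] at h1
  · exact h1
  · exact (Valuation.ne_zero_iff _).2 hz'
  · exact (Valuation.ne_zero_iff _).2 (by rw [Ne, map_eq_zero]; exact hz')

end val

/-- **RATB** -/
theorem ratb : RATBStm := by
  classical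
  intro hPL hLOC e l n hP hn hnd hl K _ _ S hS
  obtain ⟨d, hd⟩ : ∃ d : ℕ, d = e.natAbs := ⟨_, rfl⟩
  have hed : e = d ∨ e = -d := by omega
  have : NeZero d := ⟨by omega⟩
  let L := CyclotomicField d K
  have : NumberField L := inferInstance
  have hζ := IsCyclotomicExtension.zeta_spec d K L
  set ζ := IsCyclotomicExtension.zeta d K L with hζdef
  obtain ⟨T, hT, hTv⟩ := hPL K L S hS
  have hfin : {w : HeightOneSpectrum (𝓞 L) | ((d : ℤ) : 𝓞 L) ∈ w.asIdeal}.Finite := by
    have hI : Ideal.span {((d : ℤ) : 𝓞 L)} ≠ ⊥ := by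
      rw [Ne, Ideal.span_singleton_eq_bot]
      have : d ≠ 0 := by omega
      exact_mod_cast this
    refine (Ideal.finite_factors hI).subset (fun v hv => ?_)
    exact Ideal.dvd_span_singleton.2 hv
  have hζd := hζ.pow_eq_one
  let r : Fin n → L := fun i => ζ ^ ((i : ℕ) + 1)
  have hr : Function.Injective r := by
    intro i j h
    have h1 := hζ.pow_inj (by omega) (by omega) h
    exact Fin.ext (by omega)
  have hroot : ∀ i, r i ^ d = 1 := by
    intro i
    show (ζ ^ ((i : ℕ) + 1)) ^ d = 1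
    rw [← pow_mul, mul_comm, pow_mul, hζd, one_pow]
  have hne1 : ∀ i, r i ≠ 1 := fun i => hζ.pow_ne_one_of_pos_of_lt (by omega) (by omega)
  have hinj := (algebraMap K L).injective
  have hfin2 := (hP L _ (hfin.union hT) r hr).union (Set.finite_range r)
  refine ⟨_, hfin2.preimage (f := algebraMap K L) hinj.injOn, ?_⟩
  intro b c x y hb hC hx hy hxy hy0
  rw [Set.mem_preimage]
  set ρ := algebraMap K L (x / y) with hρ
  set X := algebraMap K L x with hX
  set Y := algebraMap K L y with hY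
  have hY0 : Y ≠ 0 := fun h => hy0 (hinj (by rw [← hY, h, map_zero]))
  have hXY : X ≠ Y := fun h => hxy (hinj h)
  have hρ' : ρ = X / Y := by rw [hρ, map_div₀]
  by_cases hin : ∃ i, r i = ρ
  · exact Or.inr hin
  push Not at hin
  left
  refine ⟨fun i h => hin i h.symm, ?_⟩
  intro i j w hw
  have hw1 : w ∉ T := fun h => hw (Or.inr h)
  obtain ⟨v, hvS, hvw⟩ := hTv w hw1
  have hs : ∀ i, ρ - r i ≠ 0 := fun i => sub_ne_zero.2 fun h => hin i h.symm
  have e1 : ∀ i, X - r i * Y = (ρ - r i) * Y := fun i => by rw [hρ', sub_mul, div_mul_cancel₀ _ hY0]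
  have hbL : algebraMap K L b ≠ 0 := by rw [Ne, map_eq_zero]; exact hb
  have hloc := hLOC L w d e (algebraMap K L b) (algebraMap K L c) X Y (r i) (r j) (by omega) hed
    (val_nat w fun h => hw (Or.inl h)) ⟨ζ, hζ⟩ hbL (map_pera _ hx) (map_pera _ hy) hXY
    (hroot i) (hne1 i) (hroot j) (hne1 j) (by rw [e1]; exact mul_ne_zero (hs i) hY0)
    (by rw [e1]; exact mul_ne_zero (hs j) hY0)
  rw [e1, e1, mul_div_mul_right _ _ hY0] at hloc
  rcases hloc with h1 | ⟨h1, h2, k, h3⟩
  · exact ⟨1, one_ne_zero, by rw [h1, map_one, one_pow]⟩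
  set g := b * x ^ (e - 1) with hg
  have hgL : algebraMap K L b * X ^ (e - 1) = algebraMap K L g := by
    rw [hg, map_mul, map_zpow₀]
  have hcL : algebraMap K L b * algebraMap K L c ^ (e - 1) = algebraMap K L (b * c ^ (e - 1)) := by
    rw [map_mul, map_zpow₀]
  rw [hgL] at h1 h2 h3
  rw [hcL] at h2
  have hvg : 1 < v.valuation K g := (val_gt_iff hvw g).1 h1
  have hg0 : g ≠ 0 := by
    intro h
    rw [h, map_zero] at hvg
    exact absurd hvg (by simp)
  have hgL0 : w.valuation L (algebraMap K L g) ≠ 0 := fun h => by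
    rw [h] at h1
    exact absurd h1 (by simp)
  have hbc0 : b * c ^ (e - 1) ≠ 0 := by
    intro h
    rw [h, map_zero, map_zero] at h2
    exact zpow_ne_zero _ hgL0 h2.symm
  have h4 : v.valuation K (b * c ^ (e - 1)) = v.valuation K g ^ e := by
    rw [← map_zpow₀, ← map_zpow₀] at h2
    rw [← map_zpow₀]
    exact (val_eq_iff hvw hbc0 (zpow_ne_zero _ hg0)).1 h2
  obtain ⟨h, hh⟩ := hC v hvS g hvg h4
  have hh0 : h ≠ 0 := by
    intro h0
    rw [h0, map_zero, zero_pow hl.ne'] at hh
    rw [hh] at hvg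
    exact absurd hvg (by simp)
  have h5 : w.valuation L (algebraMap K L g) = w.valuation L (algebraMap K L h) ^ l := by
    rw [← map_pow, ← map_pow]
    rw [← map_pow] at hh
    exact (val_eq_iff hvw hg0 (pow_ne_zero _ hh0)).2 hh
  refine ⟨algebraMap K L h ^ k, zpow_ne_zero _ (by rw [Ne, map_eq_zero]; exact hh0), ?_⟩
  rw [h3, h5, map_zpow₀, ← zpow_natCast, ← zpow_natCast, ← zpow_mul, ← zpow_mul, mul_comm]

end Pool.Agent.W2helper49.BT4
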